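import Pool.Agent.Helper16.MD.Stmts

open Finset Filter
open scoped ComplexConjugate

namespace Pool.Agent.Helper16.MD

theorem tka_img {p : ℕ} (hp : 0 < p) (N : ℕ) :
    (Icc 1 N).filter (fun n => p ∣ n) = (Icc 1 (N / p)).image (fun y => p * y) := by
  ext n
  simp only [mem_filter, mem_image, mem_Icc]
  constructor
  · rintro ⟨⟨h1, h2⟩, y, rfl⟩
    refine ⟨y, ⟨?_, ?_⟩, rfl⟩
    · rcases Nat.eq_zero_or_pos y with h | h
      · subst h; simp at h1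
      · exact h
    · rw [Nat.le_div_iff_mul_le hp, mul_comm]; exact h2
  · rintro ⟨y, ⟨h1, h2⟩, rfl⟩
    rw [Nat.le_div_iff_mul_le hp, mul_comm] at h2
    exact ⟨⟨Nat.mul_pos hp h1, h2⟩, Dvd.intro _ rfl⟩

theorem tka_mult {M : Type*} [AddCommMonoid M] {p : ℕ} (hp : 0 < p) (N : ℕ) (g : ℕ → M) :
    ∑ n ∈ (Icc 1 N).filter (fun n => p ∣ n), g n = ∑ y ∈ Icc 1 (N / p), g (p * y) := by
  rw [tka_img hp, sum_image]
  intro a _ b _ h
  exact Nat.eq_of_mul_eq_mul_left hp h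

theorem tka_card {p : ℕ} (hp : 0 < p) (N : ℕ) :
    (((Icc 1 N).filter (fun n => p ∣ n)).card : ℕ) = N / p := by
  rw [tka_img hp, card_image_of_injective _ (fun a b h => Nat.eq_of_mul_eq_mul_left hp h)]
  simp

theorem tka_mu {p : ℕ} (hp : p.Prime) (y : ℕ) :
    ArithmeticFunction.moebius (p * y) =
      - ArithmeticFunction.moebius y + if p ∣ y then ArithmeticFunction.moebius y else 0 := by
  split_ifs with h
  · rw [neg_add_cancel]
    refine ArithmeticFunction.moebius_eq_zero_of_not_squarefree ?_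
    intro hs
    obtain ⟨z, rfl⟩ := h
    have := hs p ⟨z, by ring⟩
    exact hp.one_lt.ne' (Nat.isUnit_iff.1 this)
  · have hc : Nat.Coprime p y := (Nat.Prime.coprime_iff_not_dvd hp).2 h
    rw [ArithmeticFunction.isMultiplicative_moebius.map_mul_of_coprime hc,
      ArithmeticFunction.moebius_apply_prime hp]
    ring

theorem tka_one {p : ℕ} (hp : p.Prime) (f : ℕ → ℂ) (N : ℕ) :
    ∑ n ∈ (Icc 1 N).filter (fun n => p ∣ n), ((ArithmeticFunction.moebius n : ℤ) : ℂ) * f n =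
      - MS (fun y => f (p * y)) (N / p) +
        ∑ y ∈ (Icc 1 (N / p)).filter (fun y => p ∣ y),
          ((ArithmeticFunction.moebius y : ℤ) : ℂ) * f (p * y) := by
  rw [tka_mult hp.pos, MS, sum_filter, ← sum_neg_distrib, ← sum_add_distrib]
  refine sum_congr rfl fun y _ => ?_
  rw [tka_mu hp]
  split_ifs <;> push_cast <;> ring

theorem tka_abs (n : ℕ) (f : ℕ → ℂ) (m : ℕ) (hf : ∀ n, ‖f n‖ ≤ 1) :
    ‖((ArithmeticFunction.moebius n : ℤ) : ℂ) * f m‖ ≤ 1 := by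
  rw [norm_mul]
  have h1 : ‖((ArithmeticFunction.moebius n : ℤ) : ℂ)‖ ≤ 1 := by
    rw [Complex.norm_intCast]
    have := ArithmeticFunction.abs_moebius_le_one (n := n)
    exact_mod_cast this
  calc _ ≤ 1 * 1 := mul_le_mul h1 (hf m) (norm_nonneg _) zero_le_one
    _ = 1 := one_mul 1

theorem tka_err {p : ℕ} (hp : p.Prime) (f : ℕ → ℂ) (hf : ∀ n, ‖f n‖ ≤ 1) (N : ℕ) :
    ‖∑ y ∈ (Icc 1 (N / p)).filter (fun y => p ∣ y),
          ((ArithmeticFunction.moebius y : ℤ) : ℂ) * f (p * y)‖ ≤ N * (1 / (p : ℝ) ^ 2) := by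
  refine (norm_sum_le _ _).trans ?_
  refine (sum_le_sum fun y _ => tka_abs y f (p * y) hf).trans ?_
  rw [sum_const, nsmul_eq_mul, mul_one, tka_card hp.pos]
  have hp0 : (0 : ℝ) < p := by exact_mod_cast hp.pos
  calc ((N / p / p : ℕ) : ℝ) ≤ ((N / p : ℕ) : ℝ) / p := Nat.cast_div_le
    _ ≤ ((N : ℝ) / p) / p := by gcongr; exact Nat.cast_div_le
    _ = N * (1 / (p : ℝ) ^ 2) := by rw [div_div, sq]; ring

/-- number of prime divisors in `S` -/
noncomputable def tkaw (S : Finset ℕ) (n : ℕ) : ℝ := ∑ p ∈ S, if p ∣ n then (1 : ℝ) else 0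

theorem tka_cnt (p N : ℕ) :
    ∑ n ∈ Icc 1 N, (if p ∣ n then (1 : ℝ) else 0) =
      ((((Icc 1 N).filter (fun n => p ∣ n)).card : ℕ) : ℝ) := by
  rw [card_filter]; push_cast; rfl

theorem tka_m1 (S : Finset ℕ) (hS : ∀ p ∈ S, p.Prime) (N : ℕ) :
    N * (∑ p ∈ S, 1 / (p : ℝ)) - S.card ≤ ∑ n ∈ Icc 1 N, tkaw S n := by
  unfold tkaw
  have hc : (S.card : ℝ) = ∑ _p ∈ S, (1 : ℝ) := by simp
  rw [sum_comm, mul_sum, hc, ← sum_sub_distrib]
  refine sum_le_sum fun p hp => ?_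
  rw [tka_cnt, tka_card (hS p hp).pos]
  have hp0 : (0 : ℝ) < p := by exact_mod_cast (hS p hp).pos
  have h := Nat.lt_div_mul_add (a := N) (hS p hp).pos
  have h' : (N : ℝ) < ((N / p : ℕ) : ℝ) * p + p := by exact_mod_cast h
  have e : (N : ℝ) * (1 / (p : ℝ)) = N / p := by ring
  rw [e, sub_le_iff_le_add, div_le_iff₀ hp0]
  nlinarith

theorem tka_m2 (S : Finset ℕ) (hS : ∀ p ∈ S, p.Prime) (N : ℕ) :
    ∑ n ∈ Icc 1 N, tkaw S n ^ 2 ≤
      N * ((∑ p ∈ S, 1 / (p : ℝ)) ^ 2 + ∑ p ∈ S, 1 / (p : ℝ)) := by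
  have e1 : ∀ n, tkaw S n ^ 2 = ∑ p ∈ S, ∑ q ∈ S, if p ∣ n ∧ q ∣ n then (1 : ℝ) else 0 := by
    intro n
    rw [sq, tkaw, sum_mul_sum]
    refine sum_congr rfl fun p _ => sum_congr rfl fun q _ => ?_
    by_cases h1 : p ∣ n <;> by_cases h2 : q ∣ n <;> simp [h1, h2]
  have e2 : ∑ n ∈ Icc 1 N, tkaw S n ^ 2 =
      ∑ p ∈ S, ∑ q ∈ S, ∑ n ∈ Icc 1 N, if p ∣ n ∧ q ∣ n then (1 : ℝ) else 0 := by
    simp only [e1]
    rw [sum_comm]
    exact sum_congr rfl fun p _ => sum_comm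
  have e3 : (N : ℝ) * ((∑ p ∈ S, 1 / (p : ℝ)) ^ 2 + ∑ p ∈ S, 1 / (p : ℝ)) =
      ∑ p ∈ S, ∑ q ∈ S, (N * (1 / (p : ℝ) * (1 / (q : ℝ))) + if p = q then N * (1 / (p : ℝ))
        else 0) := by
    rw [sq, sum_mul_sum, mul_add, mul_sum, mul_sum]
    simp only [sum_add_distrib, sum_ite_eq, mul_sum]
    congr 1
    refine sum_congr rfl fun p hp => ?_
    rw [if_pos hp]
  rw [e2, e3]
  refine sum_le_sum fun p hp => sum_le_sum fun q hq => ?_
  have hp0 : (0 : ℝ) < p := by exact_mod_cast (hS p hp).pos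
  have hq0 : (0 : ℝ) < q := by exact_mod_cast (hS q hq).pos
  by_cases hpq : p = q
  · subst hpq
    rw [if_pos rfl]
    simp only [and_self]
    rw [tka_cnt, tka_card (hS p hp).pos]
    have h1 : ((N / p : ℕ) : ℝ) ≤ N * (1 / (p : ℝ)) := by
      rw [mul_one_div]; exact Nat.cast_div_le
    have h2 : (0 : ℝ) ≤ N * (1 / (p : ℝ) * (1 / (p : ℝ))) := by positivity
    linarith
  · rw [if_neg hpq, add_zero]
    have hc : Nat.Coprime p q := (Nat.coprime_primes (hS p hp) (hS q hq)).2 hpq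
    have e4 : ∀ n, (p ∣ n ∧ q ∣ n) ↔ p * q ∣ n := fun n =>
      ⟨fun h => hc.mul_dvd_of_dvd_of_dvd h.1 h.2,
        fun h => ⟨dvd_of_mul_right_dvd h, dvd_of_mul_left_dvd h⟩⟩
    simp only [e4]
    rw [tka_cnt, tka_card (Nat.mul_pos (hS p hp).pos (hS q hq).pos)]
    have h1 : ((N / (p * q) : ℕ) : ℝ) ≤ (N : ℝ) / ((p * q : ℕ) : ℝ) := Nat.cast_div_le
    refine h1.trans (le_of_eq ?_)
    push_cast
    field_simp

theorem tka_var (S : Finset ℕ) (hS : ∀ p ∈ S, p.Prime) (N : ℕ) :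
    ∑ n ∈ Icc 1 N, ((∑ p ∈ S, 1 / (p : ℝ)) - tkaw S n) ^ 2 ≤
      N * (∑ p ∈ S, 1 / (p : ℝ)) + 2 * (∑ p ∈ S, 1 / (p : ℝ)) * S.card := by
  set A : ℝ := ∑ p ∈ S, 1 / (p : ℝ) with hA
  have hA0 : 0 ≤ A := sum_nonneg fun p _ => by positivity
  have h1 := tka_m1 S hS N
  have h2 := tka_m2 S hS N
  rw [← hA] at h1 h2
  have e : ∑ n ∈ Icc 1 N, (A - tkaw S n) ^ 2 =
      N * A ^ 2 - 2 * A * ∑ n ∈ Icc 1 N, tkaw S n + ∑ n ∈ Icc 1 N, tkaw S n ^ 2 := by
    have e' : ∀ n, (A - tkaw S n) ^ 2 = A ^ 2 - 2 * A * tkaw S n + tkaw S n ^ 2 :=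
      fun n => by ring
    simp only [e', sum_add_distrib, sum_sub_distrib, ← mul_sum, sum_const, Nat.card_Icc,
      nsmul_eq_mul, Nat.add_sub_cancel]
  rw [e]
  nlinarith [mul_le_mul_of_nonneg_left h1 hA0]

theorem st_TKA : ST_TKA := by
  intro S hS
  set A : ℝ := ∑ p ∈ S, 1 / (p : ℝ) with hA
  have hA0 : 0 ≤ A := sum_nonneg fun p _ => by positivity
  refine ⟨Real.sqrt (2 * A * S.card), Real.sqrt_nonneg _, fun f N hf => ?_⟩
  have e1 : ∑ n ∈ Icc 1 N, ((ArithmeticFunction.moebius n : ℤ) : ℂ) * f n * ((tkaw S n : ℝ) : ℂ) =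
      ∑ p ∈ S, ∑ n ∈ (Icc 1 N).filter (fun n => p ∣ n),
        ((ArithmeticFunction.moebius n : ℤ) : ℂ) * f n := by
    simp only [sum_filter, tkaw]
    rw [sum_comm]
    refine sum_congr rfl fun n _ => ?_
    push_cast
    rw [mul_sum]
    refine sum_congr rfl fun p _ => ?_
    split_ifs <;> simp
  have e2 : ((A : ℝ) : ℂ) * MS f N + ∑ p ∈ S, MS (fun y => f (p * y)) (N / p) =
      ∑ n ∈ Icc 1 N, ((ArithmeticFunction.moebius n : ℤ) : ℂ) * f n * ((A - tkaw S n : ℝ) : ℂ) +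
      ∑ p ∈ S, ∑ y ∈ (Icc 1 (N / p)).filter (fun y => p ∣ y),
          ((ArithmeticFunction.moebius y : ℤ) : ℂ) * f (p * y) := by
    have e3 : ∑ p ∈ S, ∑ n ∈ (Icc 1 N).filter (fun n => p ∣ n),
        ((ArithmeticFunction.moebius n : ℤ) : ℂ) * f n =
        - ∑ p ∈ S, MS (fun y => f (p * y)) (N / p) + ∑ p ∈ S,
          ∑ y ∈ (Icc 1 (N / p)).filter (fun y => p ∣ y),
          ((ArithmeticFunction.moebius y : ℤ) : ℂ) * f (p * y) := by
      rw [← sum_neg_distrib, ← sum_add_distrib]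
      exact sum_congr rfl fun p hp => tka_one (hS p hp) f N
    have e4 : ∑ n ∈ Icc 1 N,
        ((ArithmeticFunction.moebius n : ℤ) : ℂ) * f n * ((A - tkaw S n : ℝ) : ℂ) =
        ((A : ℝ) : ℂ) * MS f N - ∑ n ∈ Icc 1 N,
          ((ArithmeticFunction.moebius n : ℤ) : ℂ) * f n * ((tkaw S n : ℝ) : ℂ) := by
      rw [MS, mul_sum, ← sum_sub_distrib]
      refine sum_congr rfl fun n _ => ?_
      push_cast; ring
    rw [e4, e1, e3]
    ring
  rw [e2]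
  refine (norm_add_le _ _).trans ?_
  have h1 : ‖∑ p ∈ S, ∑ y ∈ (Icc 1 (N / p)).filter (fun y => p ∣ y),
          ((ArithmeticFunction.moebius y : ℤ) : ℂ) * f (p * y)‖ ≤
      N * ∑ p ∈ S, 1 / (p : ℝ) ^ 2 := by
    rw [mul_sum]
    exact (norm_sum_le _ _).trans (sum_le_sum fun p hp => tka_err (hS p hp) f hf N)
  have h2 : ‖∑ n ∈ Icc 1 N,
      ((ArithmeticFunction.moebius n : ℤ) : ℂ) * f n * ((A - tkaw S n : ℝ) : ℂ)‖ ≤
      ∑ n ∈ Icc 1 N, |A - tkaw S n| := by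
    refine (norm_sum_le _ _).trans (sum_le_sum fun n _ => ?_)
    rw [norm_mul, Complex.norm_real, Real.norm_eq_abs]
    calc _ ≤ 1 * |A - tkaw S n| :=
          mul_le_mul_of_nonneg_right (tka_abs n f n hf) (abs_nonneg _)
      _ = _ := one_mul _
  have h3 : ∑ n ∈ Icc 1 N, |A - tkaw S n| ≤
      Real.sqrt N * Real.sqrt (N * A + 2 * A * S.card) := by
    have h4 : (∑ n ∈ Icc 1 N, |A - tkaw S n|) ^ 2 ≤ N * (N * A + 2 * A * S.card) := by
      have h5 := sq_sum_le_card_mul_sum_sq (s := Icc 1 N) (f := fun n => |A - tkaw S n|)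
      simp only [sq_abs, Nat.card_Icc, Nat.add_sub_cancel] at h5
      exact h5.trans (mul_le_mul_of_nonneg_left (tka_var S hS N) (by positivity))
    rw [← Real.sqrt_mul (by positivity)]
    exact Real.le_sqrt_of_sq_le h4
  have h6 : Real.sqrt (N * A + 2 * A * S.card) ≤
      Real.sqrt N * Real.sqrt A + Real.sqrt (2 * A * S.card) := by
    rw [← Real.sqrt_mul (by positivity)]
    refine Real.sqrt_le_iff.2 ⟨by positivity, ?_⟩
    have hx : (0 : ℝ) ≤ N * A := by positivity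
    have hy : (0 : ℝ) ≤ 2 * A * S.card := by positivity
    nlinarith [Real.sq_sqrt hx, Real.sq_sqrt hy, Real.sqrt_nonneg (N * A : ℝ),
      Real.sqrt_nonneg (2 * A * S.card),
      mul_nonneg (Real.sqrt_nonneg (N * A : ℝ)) (Real.sqrt_nonneg (2 * A * S.card))]
  have h7 : Real.sqrt N * Real.sqrt (N * A + 2 * A * S.card) ≤
      N * Real.sqrt A + Real.sqrt (2 * A * S.card) * Real.sqrt N := by
    calc _ ≤ Real.sqrt N * (Real.sqrt N * Real.sqrt A + Real.sqrt (2 * A * S.card)) :=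
          mul_le_mul_of_nonneg_left h6 (Real.sqrt_nonneg _)
      _ = (Real.sqrt N * Real.sqrt N) * Real.sqrt A + Real.sqrt (2 * A * S.card) * Real.sqrt N := by
          ring
      _ = _ := by rw [Real.mul_self_sqrt (by positivity)]
  nlinarith [h1, h2, h3, h7]

end Pool.Agent.Helper16.MD
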